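import Mathlib
import Pool.Agent.MP_2ae84e_co.Defs
import Pool.Agent.MP_2ae84e_co.Lower

set_option autoImplicit false

open Pool.Agent.MP_2ae84e_co

namespace Pool.Agent.Results.MP_2ae84e_co.Unbounded

/-- The gap pd(G) - pd(T) between a unicyclic graph and a spanning tree is unbounded. -/
theorem result : ∀ c : ℕ, ∃ (V : Type) (_ : Fintype V) (G T : SimpleGraph V),
    G.Connected ∧ Nat.card G.edgeSet = Nat.card V ∧ T ≤ G ∧ T.IsTree ∧
      partitionDim T + c < partitionDim G := by
  intro c
  obtain ⟨V, hV, G, T, k, h1, h2, h3, h4, h5, h6⟩ := unbounded c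
  refine ⟨V, hV, G, T, h1, h2, h3, h4, ?_⟩
  have hT : partitionDim T ≤ k := Nat.sInf_le h5
  have hne : {k : ℕ | ∃ f : V → Fin k, IsResolvingPartition G k f}.Nonempty := by
    refine ⟨Fintype.card V, Fintype.equivFin V, (Fintype.equivFin V).surjective, ?_⟩
    intro u w h
    have hw := (cd_eq_zero h1 (Fintype.equivFin V).surjective w (Fintype.equivFin V w)).mpr rfl
    have hu : cd G (Fintype.equivFin V) u (Fintype.equivFin V w) = 0 := by
      rw [← hw]; exact h _
    rw [cd_eq_zero h1 (Fintype.equivFin V).surjective] at hu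
    exact (Fintype.equivFin V).injective hu
  have hG := Nat.sInf_mem hne
  by_contra hlt
  exact h6 (partitionDim G) (by omega) hG

end Pool.Agent.Results.MP_2ae84e_co.Unbounded
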